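import Pool.Agent.Helper16.Demailly

set_option autoImplicit false

namespace Pool.Agent.Results.MP_70675a_ag.FatPointBound

/-- **The bounds of Chudnovsky, Harbourne-Huneke and Demailly with arbitrary multiplicities.**
Let `k` be a field, `n ≥ 1`, let `W` be a nonempty finite set of points of `P^n` over `k` and
`m, M : points → ℕ`. Let `α` be the smallest degree of a nonzero form in `⋂ I_P ^ m_P` and assume
that the characteristic of `k` is `0` or larger than `α + n - 2`. If `r ≥ 1` and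
`r (m_P + n - 1) ≤ c M_P` for all `P` in `W`, then every nonzero form of degree `d` in
`⋂ I_P ^ M_P` satisfies `r (α + n - 1) ≤ c d`. -/
theorem result (k : Type) [Field k] (n : ℕ) (hn : 1 ≤ n)
    (W : Finset (Projectivization k (Fin (n+1) → k))) (hWne : W.Nonempty)
    (m M : Projectivization k (Fin (n+1) → k) → ℕ)
    (α : ℕ)
    (hα : IsLeast {e : ℕ | ∃ g : MvPolynomial (Fin (n+1)) k, g ≠ 0 ∧ g.IsHomogeneous e ∧
      ∀ P ∈ W, g ∈ (Ideal.span {h : MvPolynomial (Fin (n+1)) k |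
          h.IsHomogeneous 1 ∧ MvPolynomial.eval P.rep h = 0}) ^ m P} α)
    (hchar : ∀ j : ℕ, 1 ≤ j → j + 2 ≤ α + n → (j : k) ≠ 0)
    (r c : ℕ) (hr : 1 ≤ r) (hrc : ∀ P ∈ W, r * (m P + n - 1) ≤ c * M P)
    (d : ℕ) (f : MvPolynomial (Fin (n+1)) k) (hf0 : f ≠ 0) (hf : f.IsHomogeneous d)
    (hfW : ∀ P ∈ W, f ∈ (Ideal.span {h : MvPolynomial (Fin (n+1)) k |
          h.IsHomogeneous 1 ∧ MvPolynomial.eval P.rep h = 0}) ^ M P) :
    r * (α + n - 1) ≤ c * d := by
  obtain ⟨n', rfl⟩ : ∃ n', n = n' + 1 := ⟨n - 1, by omega⟩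
  obtain ⟨⟨g, hg0, hg, hgW⟩, hmin⟩ := hα
  -- normalised coordinates of the points
  have hi : ∀ P : W, ∃ i, (P : Projectivization k (Fin (n'+1+1) → k)).rep i ≠ 0 := by
    intro P
    exact Function.ne_iff.mp
      (Projectivization.rep_nonzero (P : Projectivization k (Fin (n'+1+1) → k)))
  choose i0 hi0 using hi
  let v : W → Fin (n'+1+1) → k := fun P =>
    ((P : Projectivization k (Fin (n'+1+1) → k)).rep (i0 P))⁻¹ •
      (P : Projectivization k (Fin (n'+1+1) → k)).rep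
  have hv : ∀ P, v P (i0 P) = 1 := by
    intro P
    simp only [v, Pi.smul_apply, smul_eq_mul]
    exact inv_mul_cancel₀ (hi0 P)
  have hv' : ∀ P : W, (P : Projectivization k (Fin (n'+1+1) → k)).rep =
      ((P : Projectivization k (Fin (n'+1+1) → k)).rep (i0 P)) • v P := by
    intro P
    simp only [v, smul_smul]
    rw [mul_inv_cancel₀ (hi0 P), one_smul]
  obtain ⟨P0, hP0⟩ := hWne
  have : Nonempty W := ⟨⟨P0, hP0⟩⟩
  have hα' : ∀ (e : ℕ) (G : MvPolynomial (Fin (n'+1+1)) k), G ≠ 0 → G.IsHomogeneous e →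
      (∀ P : W, Pool.Agent.Helper16.T (i0 P) (v P) G ∈
        Pool.Agent.Helper16.W k (i0 P) (m P)) → α ≤ e := by
    intro e G hG0 hG hGW
    refine hmin ⟨G, hG0, hG, fun P hP => ?_⟩
    exact Pool.Agent.Helper16.mem_ptIdeal_pow_of_mem_W (hv' ⟨P, hP⟩) (hv ⟨P, hP⟩) (hGW ⟨P, hP⟩)
  have hfT : ∀ P : W, Pool.Agent.Helper16.T (i0 P) (v P) f ∈
      Pool.Agent.Helper16.W k (i0 P) (M P) := by
    intro P
    have hPP := hfW P.1 P.2
    have hvP : v P = ((P.1).rep (i0 P))⁻¹ • (P.1).rep := rfl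
    exact Pool.Agent.Helper16.mem_W_of_mem_ptIdeal_pow hvP (hv P) hPP
  have hfc : ∀ P : W, Pool.Agent.Helper16.T (i0 P) (v P) (f ^ c) ∈
      Pool.Agent.Helper16.W k (i0 P) (r * (m P + n')) := by
    intro P
    rw [map_pow]
    refine Pool.Agent.Helper16.W_mono ?_ (Pool.Agent.Helper16.W_pow (hfT P) c)
    have h1 := hrc P.1 P.2
    have h2 : m P.1 + (n' + 1) - 1 = m P.1 + n' := by omega
    rw [h2] at h1
    calc r * (m P.1 + n') ≤ c * M P.1 := h1
      _ = M P.1 * c := Nat.mul_comm _ _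
  have hcard : Fintype.card (Fin (n'+1+1)) = n' + 1 + 1 := Fintype.card_fin _
  have hmain : r * (α + n') ≤ d * c := by
    refine @Pool.Agent.Helper16.main_bound_mu (Fin (n'+1+1)) _ _ k _ n' r hr hcard W _ _ i0 v hv
      (fun P => m P.1) α hα' (fun j hj0 hj => hchar j hj0 (by omega)) (f ^ c) (d * c)
      (hf.pow c) (pow_ne_zero _ hf0) hfc
  have h2 : α + (n' + 1) - 1 = α + n' := by omega
  rw [h2, Nat.mul_comm c d]
  exact hmain

end Pool.Agent.Results.MP_70675a_ag.FatPointBound
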